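import Mathlib

/-!
# The first Pellian iterate of `x ↦ (d x + k) / (x + d)` can skip the first Pellian convergent

For `k = 375` the first convergent `d` of `√k` with `R = 4 d ^ 2 / (k - d ^ 2) ∈ ℤ` is `d = 155/8`, the first
Pellian convergent of `√375` is `15124/781`, but the first Pellian iterate is
`f ^ 5 (∞) = 457470751/23623688`.
-/

set_option autoImplicit false

namespace Pool.Agent.Results.MP_c624c9_nt.FirstPellianSkipped

open OnePoint

/-- The map `f(x) = (d x + k) / (x + d)` on `ℚ ∪ {∞}`, with `f(∞) = d` and `f(-d) = ∞`. -/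
def f (k : ℕ) (d : ℚ) (x : OnePoint ℚ) : OnePoint ℚ :=
  x.elim (d : OnePoint ℚ) fun y => if y + d = 0 then ∞ else (((d * y + k) / (y + d) : ℚ) : OnePoint ℚ)

/-- The convergent `[c_0; c_1, ..., c_j]` (`j ≥ 0`) of the simple continued fraction of `√k`. -/
noncomputable def conv (k j : ℕ) : ℝ := (GenContFract.of (Real.sqrt k)).convs j

/-- `R(k, x) = 4 x ^ 2 / (k - x ^ 2)` is an integer. -/
def RIsInteger (k : ℕ) (x : ℚ) : Prop := ∃ R : ℤ, (R : ℚ) = 4 * x ^ 2 / (k - x ^ 2)

/-- `x = p / q` (lowest terms, `p, q > 0`) is Pellian: `p ^ 2 - k q ^ 2 = ± 1`. -/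
def IsPellian (k : ℕ) (x : ℚ) : Prop :=
  0 < x ∧ (x.num ^ 2 - k * (x.den : ℤ) ^ 2 = 1 ∨ x.num ^ 2 - k * (x.den : ℤ) ^ 2 = -1)

section contfrac

lemma sqrt_sq : Real.sqrt 375 * Real.sqrt 375 = 375 := Real.mul_self_sqrt (by norm_num)

lemma sqrt_lo : (19364 / 1000 : ℝ) < Real.sqrt 375 := by
  rw [Real.lt_sqrt (by norm_num)]; norm_num

lemma sqrt_hi : Real.sqrt 375 < (19365 / 1000 : ℝ) := by
  rw [Real.sqrt_lt' (by norm_num)]; norm_num

/-- One step of the continued fraction algorithm. -/
lemma step {v w : ℝ} {a b : ℤ} (hv : (a : ℝ) ≤ v ∧ v < a + 1) (hw : w * (v - a) = 1)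
    (hb : (b : ℝ) ≤ w ∧ w < b + 1) :
    (GenContFract.of v).s.get? 0 = Option.some (GenContFract.Pair.mk 1 (b : ℝ)) ∧
      ∀ n, (GenContFract.of v).s.get? (n + 1) = (GenContFract.of w).s.get? n := by
  have hfl : ⌊v⌋ = a := Int.floor_eq_iff.2 hv
  have hfr : Int.fract v = v - a := by rw [← hfl]; rfl
  have hne : Int.fract v ≠ 0 := by
    rw [hfr]; intro h; rw [h] at hw; norm_num at hw
  have hinv : (Int.fract v)⁻¹ = w := by
    rw [hfr]; exact (eq_inv_of_mul_eq_one_left hw).symm
  have hb' : ⌊w⌋ = b := Int.floor_eq_iff.2 hb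
  refine ⟨?_, fun n => ?_⟩
  · have h := GenContFract.of_s_head hne
    rw [hinv, hb'] at h
    exact h
  · rw [GenContFract.of_s_succ, hinv]

/-- The first partial quotients of `√375 = [19; 2, 1, 2, 1, 5, 1, 2, 1, 2, ...]`. -/
lemma quotients :
    (GenContFract.of (Real.sqrt 375)).s.get? 0 = Option.some (GenContFract.Pair.mk 1 (2 : ℝ)) ∧
    (GenContFract.of (Real.sqrt 375)).s.get? 1 = Option.some (GenContFract.Pair.mk 1 (1 : ℝ)) ∧
    (GenContFract.of (Real.sqrt 375)).s.get? 2 = Option.some (GenContFract.Pair.mk 1 (2 : ℝ)) ∧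
    (GenContFract.of (Real.sqrt 375)).s.get? 3 = Option.some (GenContFract.Pair.mk 1 (1 : ℝ)) ∧
    (GenContFract.of (Real.sqrt 375)).s.get? 4 = Option.some (GenContFract.Pair.mk 1 (5 : ℝ)) ∧
    (GenContFract.of (Real.sqrt 375)).s.get? 5 = Option.some (GenContFract.Pair.mk 1 (1 : ℝ)) ∧
    (GenContFract.of (Real.sqrt 375)).s.get? 6 = Option.some (GenContFract.Pair.mk 1 (2 : ℝ)) ∧
    (GenContFract.of (Real.sqrt 375)).s.get? 7 = Option.some (GenContFract.Pair.mk 1 (1 : ℝ)) ∧
    (GenContFract.of (Real.sqrt 375)).s.get? 8 = Option.some (GenContFract.Pair.mk 1 (2 : ℝ)) := by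
  have h1 := sqrt_sq
  have h2 := sqrt_lo
  have h3 := sqrt_hi
  set s := Real.sqrt 375 with hs
  obtain ⟨a0, b0⟩ := step (v := s) (w := (s + 19) / 14) (a := 19) (b := 2)
    (by constructor <;> push_cast <;> linarith) (by push_cast; nlinarith)
    (by constructor <;> push_cast <;> linarith)
  obtain ⟨a1, b1⟩ := step (v := (s + 19) / 14) (w := (s + 9) / 21) (a := 2) (b := 1)
    (by constructor <;> push_cast <;> linarith) (by push_cast; nlinarith)
    (by constructor <;> push_cast <;> linarith)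
  obtain ⟨a2, b2⟩ := step (v := (s + 9) / 21) (w := (s + 12) / 11) (a := 1) (b := 2)
    (by constructor <;> push_cast <;> linarith) (by push_cast; nlinarith)
    (by constructor <;> push_cast <;> linarith)
  obtain ⟨a3, b3⟩ := step (v := (s + 12) / 11) (w := (s + 10) / 25) (a := 2) (b := 1)
    (by constructor <;> push_cast <;> linarith) (by push_cast; nlinarith)
    (by constructor <;> push_cast <;> linarith)
  obtain ⟨a4, b4⟩ := step (v := (s + 10) / 25) (w := (s + 15) / 6) (a := 1) (b := 5)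
    (by constructor <;> push_cast <;> linarith) (by push_cast; nlinarith)
    (by constructor <;> push_cast <;> linarith)
  obtain ⟨a5, b5⟩ := step (v := (s + 15) / 6) (w := (s + 15) / 25) (a := 5) (b := 1)
    (by constructor <;> push_cast <;> linarith) (by push_cast; nlinarith)
    (by constructor <;> push_cast <;> linarith)
  obtain ⟨a6, b6⟩ := step (v := (s + 15) / 25) (w := (s + 10) / 11) (a := 1) (b := 2)
    (by constructor <;> push_cast <;> linarith) (by push_cast; nlinarith)
    (by constructor <;> push_cast <;> linarith)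
  obtain ⟨a7, b7⟩ := step (v := (s + 10) / 11) (w := (s + 12) / 21) (a := 2) (b := 1)
    (by constructor <;> push_cast <;> linarith) (by push_cast; nlinarith)
    (by constructor <;> push_cast <;> linarith)
  obtain ⟨a8, b8⟩ := step (v := (s + 12) / 21) (w := (s + 9) / 14) (a := 1) (b := 2)
    (by constructor <;> push_cast <;> linarith) (by push_cast; nlinarith)
    (by constructor <;> push_cast <;> linarith)
  refine ⟨?_, ?_, ?_, ?_, ?_, ?_, ?_, ?_, ?_⟩
  · exact a0.trans (by norm_num)
  · exact (b0 0).trans (a1.trans (by norm_num))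
  · exact (b0 1).trans ((b1 0).trans (a2.trans (by norm_num)))
  · exact (b0 2).trans ((b1 1).trans ((b2 0).trans (a3.trans (by norm_num))))
  · exact (b0 3).trans ((b1 2).trans ((b2 1).trans ((b3 0).trans (a4.trans (by norm_num)))))
  · exact (b0 4).trans ((b1 3).trans ((b2 2).trans ((b3 1).trans ((b4 0).trans
      (a5.trans (by norm_num))))))
  · exact (b0 5).trans ((b1 4).trans ((b2 3).trans ((b3 2).trans ((b4 1).trans ((b5 0).trans
      (a6.trans (by norm_num)))))))
  · exact (b0 6).trans ((b1 5).trans ((b2 4).trans ((b3 3).trans ((b4 2).trans ((b5 1).trans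
      ((b6 0).trans (a7.trans (by norm_num))))))))
  · exact (b0 7).trans ((b1 6).trans ((b2 5).trans ((b3 4).trans ((b4 3).trans ((b5 2).trans
      ((b6 1).trans ((b7 0).trans (a8.trans (by norm_num)))))))))

/-- The first ten convergents of `√375`. -/
lemma convergents :
    conv 375 0 = ((19 : ℚ) : ℝ) ∧ conv 375 1 = ((39 / 2 : ℚ) : ℝ) ∧ conv 375 2 = ((58 / 3 : ℚ) : ℝ) ∧
    conv 375 3 = ((155 / 8 : ℚ) : ℝ) ∧ conv 375 4 = ((213 / 11 : ℚ) : ℝ) ∧
    conv 375 5 = ((1220 / 63 : ℚ) : ℝ) ∧ conv 375 6 = ((1433 / 74 : ℚ) : ℝ) ∧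
    conv 375 7 = ((4086 / 211 : ℚ) : ℝ) ∧ conv 375 8 = ((5519 / 285 : ℚ) : ℝ) ∧
    conv 375 9 = ((15124 / 781 : ℚ) : ℝ) := by
  obtain ⟨g0, g1, g2, g3, g4, g5, g6, g7, g8⟩ := quotients
  have e0 : Real.sqrt ((375 : ℕ) : ℝ) = Real.sqrt 375 := by norm_num
  unfold conv
  rw [e0]
  set G := GenContFract.of (Real.sqrt 375) with hG
  have hh : G.h = 19 := by
    rw [hG, GenContFract.of_h_eq_floor]
    have h2 := sqrt_lo
    have h3 := sqrt_hi
    have : ⌊Real.sqrt 375⌋ = 19 := by
      rw [Int.floor_eq_iff]; push_cast; constructor <;> linarith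
    rw [this]; norm_num
  have n0 : G.nums 0 = 19 := by rw [GenContFract.zeroth_num_eq_h, hh]
  have d0 : G.dens 0 = 1 := GenContFract.zeroth_den_eq_one
  have n1 : G.nums 1 = 39 := by rw [GenContFract.first_num_eq g0, hh]; norm_num
  have d1 : G.dens 1 = 2 := by rw [GenContFract.first_den_eq g0]
  have n2 := GenContFract.nums_recurrence g1 n0 n1
  have d2 := GenContFract.dens_recurrence g1 d0 d1
  norm_num at n2 d2
  have n3 := GenContFract.nums_recurrence g2 n1 n2
  have d3 := GenContFract.dens_recurrence g2 d1 d2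
  norm_num at n3 d3
  have n4 := GenContFract.nums_recurrence g3 n2 n3
  have d4 := GenContFract.dens_recurrence g3 d2 d3
  norm_num at n4 d4
  have n5 := GenContFract.nums_recurrence g4 n3 n4
  have d5 := GenContFract.dens_recurrence g4 d3 d4
  norm_num at n5 d5
  have n6 := GenContFract.nums_recurrence g5 n4 n5
  have d6 := GenContFract.dens_recurrence g5 d4 d5
  norm_num at n6 d6
  have n7 := GenContFract.nums_recurrence g6 n5 n6
  have d7 := GenContFract.dens_recurrence g6 d5 d6
  norm_num at n7 d7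
  have n8 := GenContFract.nums_recurrence g7 n6 n7
  have d8 := GenContFract.dens_recurrence g7 d6 d7
  norm_num at n8 d8
  have n9 := GenContFract.nums_recurrence g8 n7 n8
  have d9 := GenContFract.dens_recurrence g8 d7 d8
  norm_num at n9 d9
  simp only [GenContFract.conv_eq_num_div_den, n0, d0, n1, d1, n2, d2, n3, d3, n4, d4, n5, d5, n6, d6,
    n7, d7, n8, d8, n9, d9]
  norm_num

end contfrac

section orbit

lemma f_infty : f 375 (155 / 8) ∞ = ((155 / 8 : ℚ) : OnePoint ℚ) := rfl

lemma f_coe {y : ℚ} (h : 0 < y) :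
    f 375 (155 / 8) (y : OnePoint ℚ) = (((155 * y + 3000) / (8 * y + 155) : ℚ) : OnePoint ℚ) := by
  unfold f
  rw [OnePoint.elim_some, if_neg (by positivity)]
  congr 1
  have h1 : y + 155 / 8 ≠ 0 := by positivity
  have h2 : 8 * y + 155 ≠ 0 := by positivity
  rw [div_eq_div_iff h1 h2]; push_cast; ring

lemma it1 : (f 375 (155 / 8))^[1] ∞ = ((155 / 8 : ℚ) : OnePoint ℚ) := rfl

lemma it2 : (f 375 (155 / 8))^[2] ∞ = ((9605 / 496 : ℚ) : OnePoint ℚ) := by
  rw [Function.iterate_succ_apply', it1, f_coe (by norm_num)]; norm_num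

lemma it3 : (f 375 (155 / 8))^[3] ∞ = ((595355 / 30744 : ℚ) : OnePoint ℚ) := by
  rw [Function.iterate_succ_apply', it2, f_coe (by norm_num)]; norm_num

lemma it4 : (f 375 (155 / 8))^[4] ∞ = ((36902405 / 1905632 : ℚ) : OnePoint ℚ) := by
  rw [Function.iterate_succ_apply', it3, f_coe (by norm_num)]; norm_num

lemma it5 : (f 375 (155 / 8))^[5] ∞ = ((457470751 / 23623688 : ℚ) : OnePoint ℚ) := by
  rw [Function.iterate_succ_apply', it4, f_coe (by norm_num)]; norm_num

/-- numerator and denominator of a fraction in lowest terms -/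
lemma num_den {a b : ℕ} (hb : 0 < b) (h : Nat.Coprime a b) :
    ((a : ℚ) / (b : ℚ)).num = a ∧ ((a : ℚ) / (b : ℚ)).den = b := by
  have h1 := Rat.num_div_eq_of_coprime (a := (a : ℤ)) (b := (b : ℤ)) (by exact_mod_cast hb) (by simpa using h)
  have h2 := Rat.den_div_eq_of_coprime (a := (a : ℤ)) (b := (b : ℤ)) (by exact_mod_cast hb) (by simpa using h)
  push_cast at h1 h2
  exact ⟨h1, by exact_mod_cast h2⟩

lemma pellian_iff {a b : ℕ} (ha : 0 < a) (hb : 0 < b) (h : Nat.Coprime a b) :
    IsPellian 375 ((a : ℚ) / (b : ℚ)) ↔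
      ((a : ℤ) ^ 2 - 375 * (b : ℤ) ^ 2 = 1 ∨ (a : ℤ) ^ 2 - 375 * (b : ℤ) ^ 2 = -1) := by
  unfold IsPellian
  rw [(num_den hb h).1, (num_den hb h).2]
  have : (0 : ℚ) < (a : ℚ) / (b : ℚ) := by positivity
  simp [this]

end orbit

/-- **Q1, negative answer.** There is a nonsquare `k` for which the first Pellian fraction among the iterates
`f_d ^ n (∞)`, `n ≥ 1`, where `d = [c_0; ..., c_i]` is the first convergent of `√k` with `R(k, d) ∈ ℤ`, is not the
first Pellian convergent of `√k`. (The proof takes `k = 375`, `d = 155/8`; the first Pellian convergent is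
`x = 15124/781` and the first Pellian iterate is `y = f ^ 5 (∞) = 457470751/23623688`.) -/
theorem result :
    ∃ (k i l n : ℕ) (d x y : ℚ), 0 < k ∧ ¬ IsSquare k ∧
      -- `d` is the convergent of smallest index with `R(k, d) ∈ ℤ`
      ((d : ℝ) = conv k i ∧ RIsInteger k d ∧
        ∀ i' < i, ∀ d' : ℚ, (d' : ℝ) = conv k i' → ¬ RIsInteger k d') ∧
      -- `x` is the first Pellian convergent
      ((x : ℝ) = conv k l ∧ IsPellian k x ∧
        ∀ l' < l, ∀ x' : ℚ, (x' : ℝ) = conv k l' → ¬ IsPellian k x') ∧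
      -- `y` is the first Pellian iterate
      (1 ≤ n ∧ (f k d)^[n] ∞ = (y : OnePoint ℚ) ∧ IsPellian k y ∧
        ∀ n', 1 ≤ n' → n' < n → ∀ y' : ℚ, (f k d)^[n'] ∞ = (y' : OnePoint ℚ) → ¬ IsPellian k y') ∧
      y ≠ x := by
  obtain ⟨c0, c1, c2, c3, c4, c5, c6, c7, c8, c9⟩ := convergents
  refine ⟨375, 3, 9, 5, 155 / 8, 15124 / 781, 457470751 / 23623688, by norm_num, ?_,
    ⟨c3.symm, ⟨-3844, by norm_num⟩, ?_⟩, ⟨c9.symm, ?_, ?_⟩, ⟨by norm_num, it5, ?_, ?_⟩, by norm_num⟩
  · rintro ⟨r, hr⟩
    have h3 : r < 20 := by nlinarith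
    have h4 : 19 < r := by nlinarith
    omega
  · intro i' hi' d' hd' hR
    obtain ⟨R, hR⟩ := hR
    interval_cases i'
    · rw [c0] at hd'
      have : d' = 19 := by exact_mod_cast hd'
      rw [this] at hR
      norm_num at hR
      rw [eq_div_iff (by norm_num)] at hR
      have h : R * 7 = 722 := by exact_mod_cast hR
      omega
    · rw [c1] at hd'
      have : d' = 39 / 2 := by exact_mod_cast hd'
      rw [this] at hR
      norm_num at hR
      have h : (R : ℚ) * 7 = -2028 := by rw [hR]; norm_num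
      have h : R * 7 = -2028 := by exact_mod_cast h
      omega
    · rw [c2] at hd'
      have : d' = 58 / 3 := by exact_mod_cast hd'
      rw [this] at hR
      norm_num at hR
      have h : (R : ℚ) * 11 = 13456 := by rw [hR]; norm_num
      have h : R * 11 = 13456 := by exact_mod_cast h
      omega
  · have := (pellian_iff (a := 15124) (b := 781) (by norm_num) (by norm_num) (by norm_num)).2
      (Or.inl (by norm_num))
    exact_mod_cast this
  · intro l' hl' x' hx' hP
    have key : ∀ a b : ℕ, 0 < a → 0 < b → Nat.Coprime a b → (x' : ℝ) = (((a : ℚ) / (b : ℚ) : ℚ) : ℝ) →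
        (a : ℤ) ^ 2 - 375 * (b : ℤ) ^ 2 ≠ 1 → (a : ℤ) ^ 2 - 375 * (b : ℤ) ^ 2 ≠ -1 → False := by
      intro a b ha hb hc hx h1 h2
      have : x' = (a : ℚ) / (b : ℚ) := by exact_mod_cast hx
      rw [this, pellian_iff ha hb hc] at hP
      exact hP.elim h1 h2
    interval_cases l'
    · exact key 19 1 (by norm_num) (by norm_num) (by norm_num) (by rw [hx', c0]; norm_num)
        (by norm_num) (by norm_num)
    · exact key 39 2 (by norm_num) (by norm_num) (by norm_num) (by rw [hx', c1]; norm_num)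
        (by norm_num) (by norm_num)
    · exact key 58 3 (by norm_num) (by norm_num) (by norm_num) (by rw [hx', c2]; norm_num)
        (by norm_num) (by norm_num)
    · exact key 155 8 (by norm_num) (by norm_num) (by norm_num) (by rw [hx', c3]; norm_num)
        (by norm_num) (by norm_num)
    · exact key 213 11 (by norm_num) (by norm_num) (by norm_num) (by rw [hx', c4]; norm_num)
        (by norm_num) (by norm_num)
    · exact key 1220 63 (by norm_num) (by norm_num) (by norm_num) (by rw [hx', c5]; norm_num)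
        (by norm_num) (by norm_num)
    · exact key 1433 74 (by norm_num) (by norm_num) (by norm_num) (by rw [hx', c6]; norm_num)
        (by norm_num) (by norm_num)
    · exact key 4086 211 (by norm_num) (by norm_num) (by norm_num) (by rw [hx', c7]; norm_num)
        (by norm_num) (by norm_num)
    · exact key 5519 285 (by norm_num) (by norm_num) (by norm_num) (by rw [hx', c8]; norm_num)
        (by norm_num) (by norm_num)
  · have := (pellian_iff (a := 457470751) (b := 23623688) (by norm_num) (by norm_num) (by norm_num)).2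
      (Or.inl (by norm_num))
    exact_mod_cast this
  · intro n' hn1 hn2 y' hy' hP
    have key : ∀ a b : ℕ, 0 < a → 0 < b → Nat.Coprime a b →
        (y' : OnePoint ℚ) = (((a : ℚ) / (b : ℚ) : ℚ) : OnePoint ℚ) →
        (a : ℤ) ^ 2 - 375 * (b : ℤ) ^ 2 ≠ 1 → (a : ℤ) ^ 2 - 375 * (b : ℤ) ^ 2 ≠ -1 → False := by
      intro a b ha hb hc hx h1 h2
      have : y' = (a : ℚ) / (b : ℚ) := OnePoint.coe_injective hx
      rw [this, pellian_iff ha hb hc] at hP
      exact hP.elim h1 h2
    interval_cases n'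
    · exact key 155 8 (by norm_num) (by norm_num) (by norm_num) (by rw [← hy', it1]; norm_num)
        (by norm_num) (by norm_num)
    · exact key 9605 496 (by norm_num) (by norm_num) (by norm_num) (by rw [← hy', it2]; norm_num)
        (by norm_num) (by norm_num)
    · exact key 595355 30744 (by norm_num) (by norm_num) (by norm_num) (by rw [← hy', it3]; norm_num)
        (by norm_num) (by norm_num)
    · exact key 36902405 1905632 (by norm_num) (by norm_num) (by norm_num)
        (by rw [← hy', it4]; norm_num) (by norm_num) (by norm_num)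

end Pool.Agent.Results.MP_c624c9_nt.FirstPellianSkipped
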